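import Pool.Agent.Helper48.OD.St

/-! Module UP of project OD (MP_b3ce06_al). -/

set_option autoImplicit false

namespace Pool.Agent.Helper86.OD

open Pool.Agent.Helper43.GD Pool.Agent.Helper48.OD

private theorem up1 (h1 : StSS) (h2 : StGR) :
    ∀ (L A : Type) [CommRing L] [Group A] (Q : Fr L A) (v y : Lˣ) (m : ℕ), Gd Q v → Gn (v : L) →
    y ∈ Q.U → y ^ m = v → Gd Q y := by
  intro L A _ _ Q v y m hv hg hy hm
  have hyv : (y : L) ^ m = (v : L) := by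
    rw [← hm, Units.val_pow_eq_pow_val]
  have hd : (1 - (y : L)) ∣ (1 - (v : L)) := by
    rw [← hyv]
    exact _root_.one_sub_dvd_one_sub_pow (y : L) m
  have hu : IsUnit (1 - (y : L)) := isUnit_of_dvd_unit hd (in_isUnit Q hv.2)
  obtain ⟨w, hw⟩ := hu
  have e : ((w⁻¹ : Lˣ) : L) * (1 - (y : L)) = 1 := by
    rw [← hw]; exact w.inv_mul
  have s1 : Q.S w⁻¹ y := h1 L A Q y w⁻¹ hy e
  have s2 : Q.S w⁻¹ v := by
    rw [← hm]
    exact Q.S_pow s1 m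
  have hM : Mr Q w⁻¹ = ⊤ := (gn_iff (v : L)).1 hg _ (mem_Mr Q s2)
  exact h2 L A Q y w⁻¹ v hy e s2 hv hM

theorem hUP (h1 : StSS) (h2 : StGR) : StUP := by
  refine ⟨up1 h1 h2, ?_⟩
  intro L A _ _ Q v ζ hF hζ ht
  obtain ⟨s, hs⟩ := ht
  obtain ⟨n, hn⟩ := hF.od.eq_pow s
  refine up1 h1 h2 L A Q v (ζ * v) (2 ^ s * n) hF.gd hF.gn (Q.U.mul_mem hζ hF.gd.1) ?_
  rw [pow_mul, mul_pow, hs, one_mul, hn]

end Pool.Agent.Helper86.OD
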